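import Pool.Agent.H16R3.Curv.Exist

set_option autoImplicit false

/-!
# Maximal Ricci flow invariant curvature cones with the pinching property

In every dimension `n ≥ 4` there are curvature cones that are Ricci flow invariant, have the
pinching property and are maximal with these properties; indeed every Ricci flow invariant
curvature cone with the pinching property is contained in a maximal one.

Sketch of the proof.  A small round cone around the identity is Ricci flow invariant and has the
pinching property, so the family is not empty.  For a chain in the family the closure `C` of the
union is again in the family: the interior of `C` is the union of the interiors of the members of
the chain, so a compact subset of it lies in the interior of one member, and the closure of a set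
which is invariant under the ODE is invariant because solutions depend continuously on the
initial value.  Zorn's lemma gives maximal elements above every element.
-/

open Pool.Agent.H16R3.Curv

namespace Pool.Agent.Results.MP_952e48_gt.MaximalPinchingCone

/-- For every `n ≥ 4` there are Ricci flow invariant curvature cones with the pinching property,
and every one of them is contained in one that is maximal with respect to inclusion. -/
theorem result (n : ℕ) (hn : 4 ≤ n) :
    (∃ C : Set (Tensor4 n), IsPinchingCone n C) ∧
    ∀ C₀ : Set (Tensor4 n), IsPinchingCone n C₀ →
      ∃ C : Set (Tensor4 n), IsPinchingCone n C ∧ C₀ ⊆ C ∧
        ∀ C' : Set (Tensor4 n), IsPinchingCone n C' → C ⊆ C' → C' = C :=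
  ⟨exists_pinchingCone hn, fun _ h => exists_maximal h⟩

end Pool.Agent.Results.MP_952e48_gt.MaximalPinchingCone
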